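import Pool.Agent.Lib.H65G.Stm
import Pool.Agent.Lib.H65G.Main

namespace Pool.Agent.Results.MP_518fb6_al.RelativelyFreeTest

open Subgroup Pool.Agent.H69 Pool.Agent.H65R

/-- (1) All subformations of a formation `F` of finite groups are closed under normal subgroups if
and only if each member of `F` passes the three tests (a), (b), (c).  (2) For the formation
generated by one finite group `H` (its members are the groups `X` with `InForm H X`) it is enough
to test the homomorphic images of `H` and of one relatively free group `F_n(R)`, where `R` is the
perfect residual of `H`; the relatively free groups `F_n(G)` of finite groups `G` are finite.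
(3) Test (c) cannot be omitted: all members of the formation generated by `SL(2, 5)` pass (a) and
(b), but not all its subformations are closed under normal subgroups. -/
theorem result :
    (∀ F : Formation, (∀ H : Formation, H.Sub F → H.NormallyClosed) ↔
      ∀ (G : Type) [Group G], F.mem G → TestAbelian G ∧ TestTower G ∧ TestPerfect G) ∧
    (∀ (H : Type) [Group H] [Finite H],
      (∀ F : Formation, (∀ (X : Type) [Group X], F.mem X → InForm H X) → F.NormallyClosed) ↔
        ∀ (X : Type) [Group X], ((∃ f : H →* X, Function.Surjective f) ∨
          ∃ f : RelFree (rk (Nat.card (perfectResidual H))) (perfectResidual H) →* X,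
            Function.Surjective f) →
          TestAbelian X ∧ TestTower X ∧ TestPerfect X) ∧
    (∀ (n : ℕ) (G : Type) [Group G] [Finite G], Finite (RelFree n G)) ∧
    ((∀ (G : Type) [Group G], InForm (Matrix.SpecialLinearGroup (Fin 2) (ZMod 5)) G →
        TestAbelian G ∧ TestTower G) ∧
      ¬ ∀ F : Formation, (∀ (X : Type) [Group X], F.mem X →
        InForm (Matrix.SpecialLinearGroup (Fin 2) (ZMod 5)) X) → F.NormallyClosed) :=
  ⟨Pool.Agent.Lib.H65G.main1, fun G₀ _ _ => Pool.Agent.Lib.H65G.main2 G₀,
    fun n G _ _ => Pool.Agent.Lib.H65G.relFree_finite n G, Pool.Agent.Lib.H65G.main3⟩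

end Pool.Agent.Results.MP_518fb6_al.RelativelyFreeTest
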